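import Pool.Agent.R887.Can
import Pool.Agent.R887.Nef

/-!
The canonical bundle of a projective manifold with nef canonical divisor and a pluricanonical form
is torsion, in particular semiample, if there are rational maps of large topological degree from a
fixed variety.
-/

set_option autoImplicit false

open FF Pool.Agent.W602.GT Pool.Agent.Y172 Pool.Agent.R887

/-- Let `X` be a projective variety of dimension `n ≥ 1` with canonical singularities, for instance a
projective manifold, with generic point `y`, such that `K_X` is nef, and let `η` be an `m`-canonical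
form on `X`, not zero, `m ≥ 1`. Let `X'` be a normal projective variety of dimension `n`, with
generic point `y'`, such that for all `ε > 0` there is a dominant rational map `f : X' ⇢ X` for which
the intersection number of `n - 1` pull backs of hyperplane sections of `X` and one hyperplane
section of `X'` is at most `ε deg f`. Then `η` has no zeros: `m K_X` is trivial. So `K_X` is
semiample: the `m`-th power of the canonical bundle is generated by the section `η`. -/
theorem Pool.Agent.Results.MP_97d78d_ag.NefDegreeGrowth.result
    {K K' : Type} [Field K] [Algebra ℂ K] [Field K'] [Algebra ℂ K'] {N N' n : ℕ}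
    {y : Fin (N + 1) → K} {y' : Fin (N' + 1) → K'} (hy : NormalModel y) (hy' : NormalModel y')
    (hn : Algebra.trdeg ℂ K = n) (hn' : Algebra.trdeg ℂ K' = n) (hn0 : 0 < n)
    (hcan : Canonical y n) (hnef : CanonicalNef y n) {m : ℕ} (hm : 1 ≤ m)
    {η : (Fin n → Derivation ℂ K K) → K} (hη : IsSection y n m 0 η) (hη0 : η ≠ 0)
    (h : ∀ ε : ℝ, 0 < ε → ∃ φ : K →ₐ[ℂ] K', MixedDegreeLe φ y y' (n - 1) 1 ε) :
    ∀ P, IsPrimeDivisor y P → OrdEq P η 0 := by
  have hnum : NumDimLt y n 0 1 := by
    refine numdim hy hy' hn hn' (by omega) hcan.lc hn0 Set.finite_empty fun ε hε => ?_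
    obtain ⟨φ, hφ⟩ := h ε hε
    exact ⟨φ, hcan.pullBackLe hy hy' hn hn' φ, hφ⟩
  exact nef_trivial hy hn hn0 hnum hnef hm hη hη0
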